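import Pool.Agent.Helper50_CIG.Basic

/-!
# ZTO: finitely generated torsion groups have no subgroup of prime index isomorphic to themselves

MP_c4a8aa_al.  `ψ : G →* G` is an injective endomorphism whose image has prime index `p`.

Notation: `[a, b] = a * b * a⁻¹ * b⁻¹`; `ψ^[R]` is the iterate of the function `ψ`.
Rows: file `Pool/Agent/HelperNN_ZTO/XXX.lean`, namespace `Pool.Agent.ZTO.HNN`,
theorem `xxx (hypotheses = the statements of the column uses) : XxxStmt`.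
-/

set_option autoImplicit false

open scoped BigOperators

namespace Pool.Agent.ZTO

open Pool.Agent.H50.CIG (CI)

/-! ## 1. Finite index -/

/-- the intersection of the kernels of all homomorphisms to `Perm (Fin k)` -/
def Ker (G : Type) [Group G] (k : ℕ) : Subgroup G := ⨅ f : G →* Equiv.Perm (Fin k), f.ker

/-- KER: facts on `Ker G k` for a finitely generated group.

Proof.  A homomorphism `G → Perm (Fin k)` is determined by its values on a finite generating set: there are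
finitely many, so `Ker G k` has finite index (`Subgroup.finiteIndex_iInf`).  (3) `f.comp ψ` is a homomorphism.
(4) `α` embeds into `Fin k` (`Nat.card α ≤ k`), so `Perm α` embeds into `Perm (Fin k)`
(`Equiv.Perm.viaFintypeEmbedding` / `Equiv.Perm.viaEmbeddingHom`, injective).  (5) `α = Fin l`.  (6) the action on `G ⧸ H`
(`MulAction.toPermHom`), an element which acts trivially is in `H`.  (7) `G` acts by conjugation on the finite set
`A ⧸ B.subgroupOf A` with at most `k` elements: the class of `g a g⁻¹` is the class of `a`, so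
`a⁻¹ (g a g⁻¹) ∈ B` and (`B` normal) `g a g⁻¹ a⁻¹ ∈ B`. -/
def KerStmt : Prop := ∀ (G : Type) [Group G] [Group.FG G] (k : ℕ),
  (Ker G k).Normal ∧ (Ker G k).FiniteIndex ∧
  (∀ ψ : G →* G, ∀ g ∈ Ker G k, ψ g ∈ Ker G k) ∧
  (∀ (α : Type) [Finite α] (f : G →* Equiv.Perm α), Nat.card α ≤ k → ∀ g ∈ Ker G k, f g = 1) ∧
  (∀ l, l ≤ k → Ker G k ≤ Ker G l) ∧
  (∀ H : Subgroup G, H.index ≠ 0 → H.index ≤ k → Ker G k ≤ H) ∧
  (∀ A B : Subgroup G, B ≤ A → A.Normal → B.Normal → B.relIndex A ≠ 0 → B.relIndex A ≤ k →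
    ∀ g ∈ Ker G k, ∀ a ∈ A, g * a * g⁻¹ * a⁻¹ ∈ B)

/-! ## 2. The chain -/

/-- the chain `A i = {g | ψ^i g ∈ A 0}`, of length `n` -/
structure Chn {G : Type} [Group G] (p : ℕ) (ψ : G →* G) (n : ℕ) (A : ℕ → Subgroup G) : Prop where
  nrm : ∀ i, (A i).Normal
  com : ∀ i g, g ∈ A (i + 1) ↔ ψ g ∈ A i
  mono : ∀ i, A i ≤ A (i + 1)
  idx : ∀ i, i < n → (A i).relIndex (A (i + 1)) = p
  stb : A (n + 1) = A n
  rng : ∀ i, i < n → A i ≤ ψ.range
  top : A n ⊔ ψ.range = ⊤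

/-- CHN (uses KER): existence of the chain.

Proof.  `A 0 = Ker G (p ^ K)`, `A (i + 1) = (A i).comap ψ`: normal of finite index, `A i ≤ A (i + 1)` (KER (3), induction).
`[A (i + 1) : A i] = [G : A i ⊔ ψ(G)]`: `[G : A i] = [G : A i ⊔ ψ(G)] [A i ⊔ ψ(G) : A i]`,
`[A i ⊔ ψ(G) : A i] = [ψ(G) : ψ(G) ∩ A i] = [G : A (i + 1)]` (`ψ` induces a bijection of `G ⧸ comap` and the cosets of
`ψ(G) ∩ A i` in `ψ(G)`; `Subgroup.index_comap`) and `[G : A i] = [G : A (i + 1)] [A (i + 1) : A i]`.  The index of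
`A i ⊔ ψ(G) ≥ ψ(G)` divides `p`: it is `p` if `A i ≤ ψ(G)`, and otherwise `1`.  The first case cannot hold for all `i`
(`[G : A i]` would decrease for ever); `n` = the least `i` with `¬ A i ≤ ψ(G)`: `rng`, `idx`, `top`, and
`[A (n + 1) : A n] = 1`.  `n ≥ K`: for `i < K`, `Ker G (p ^ K) ≤ ψ^(i+1)(G)` (index `p ^ (i + 1) ≤ p ^ K`, KER (6)), so for
`g ∈ A i`: `ψ^i g = ψ^(i+1) h`, `g = ψ h`. -/
def ChnStmt : Prop := ∀ (G : Type) [Group G] [Group.FG G] (p : ℕ) (ψ : G →* G), p.Prime →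
  Function.Injective ψ → ψ.range.index = p → ∀ K : ℕ, ∃ n, K ≤ n ∧ ∃ A : ℕ → Subgroup G,
    Chn p ψ n A ∧ A 0 = Ker G (p ^ K)

/-- CHR: more about the chain.

Proof.  (1) `A (n + i) = A n` by induction (`com`, `stb`).  (2) by induction on `R`: `a ∈ A (n - R)`, `R ≥ 1`: `a = ψ a1` by
`rng`, `a1 ∈ A (n - R + 1)`, so `a1 = ψ^(R-1) b` with `b ∈ A n`; conversely `com`.  (3) for `R = 1`: `top`
(`Subgroup.mem_sup` / `mul_mem_sup`, `A n` is normal); step: `g = a (ψ g1)`, `g1 = b (ψ^R h)` with `b ∈ A n`, so `g = a (ψ b) (ψ^(R+1) h)` and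
`ψ b ∈ A n` (`b ∈ A n ≤ A (n + 1)`, `com`). -/
def ChrStmt : Prop := ∀ (G : Type) [Group G] (p : ℕ) (ψ : G →* G) (n : ℕ) (A : ℕ → Subgroup G),
  Chn p ψ n A → (∀ i, A (n + i) = A n) ∧
    (∀ R, R ≤ n → ∀ a, a ∈ A (n - R) ↔ ∃ b ∈ A n, a = (⇑ψ)^[R] b) ∧
    (∀ R g, ∃ a ∈ A n, ∃ h, g = a * (⇑ψ)^[R] h)

/-- ABC (uses KER): `A n` is abelian at its top.

Proof.  `B j = {g | ψ^j g ∈ Ker G (p ^ k)}`: subgroups of finite index, `B j ≤ B (j + 1)`, so there is `m` with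
`B m = B (m + 1)` (the index cannot decrease for ever), and then `B j = B m` for all `j ≥ m` (`B (j + 1) = comap ψ (B j)`).
For `v ∈ A n`: `ψ^n v ∈ A 0 ≤ Ker G (p ^ k)`, so `v ∈ B n ≤ B m`: `ψ^m v ∈ Ker G (p ^ k)`.  `y ∈ A i`: `ψ^m y ∈ A (i - m)`,
`[A (i - m) : A (i - m - k)] = p ^ k` (`idx`), so `[ψ^m v, ψ^m y] ∈ A (i - m - k)` by KER (7), i.e.
`ψ^m [v, y] ∈ A (i - m - k)`: `[v, y] ∈ A (i - k)` (`com`). -/
def AbcStmt : Prop := ∀ (G : Type) [Group G] [Group.FG G] (p : ℕ) (ψ : G →* G), p.Prime →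
  ∀ k : ℕ, ∃ m : ℕ, ∀ (n : ℕ) (A : ℕ → Subgroup G), Chn p ψ n A → A 0 ≤ Ker G (p ^ k) →
    ∀ v ∈ A n, ∀ i, m + k ≤ i → i ≤ n → ∀ y ∈ A i, v * y * v⁻¹ * y⁻¹ ∈ A (i - k)

/-- CLM (uses CHR): elements which centralize the top.

Proof.  `g = a (ψ^R h)`, `g' = a' (ψ^R h')` with `a, a' ∈ A n` (CHR (3)).  Modulo the normal subgroup `B = A (n - R)`:
`a`, `a'` commute with `A n`, `g`, `g'`, hence with each other, with `ψ^R h = a⁻¹ g` and `ψ^R h'`, and `A n` commutes with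
`ψ^R h`, `ψ^R h'`.  So `[g, g'] = [ψ^R h, ψ^R h']` modulo `B`, and `B ≤ ψ^R(G)` by CHR (2). -/
def ClmStmt : Prop := ∀ (G : Type) [Group G] (p : ℕ) (ψ : G →* G) (n : ℕ) (A : ℕ → Subgroup G),
  Chn p ψ n A → ∀ R, R ≤ n → (∀ a ∈ A n, ∀ b ∈ A n, a * b * a⁻¹ * b⁻¹ ∈ A (n - R)) →
    ∀ g g' : G, (∀ a ∈ A n, g * a * g⁻¹ * a⁻¹ ∈ A (n - R)) →
      (∀ a ∈ A n, g' * a * g'⁻¹ * a⁻¹ ∈ A (n - R)) → ∃ h, g * g' * g⁻¹ * g'⁻¹ = (⇑ψ)^[R] h

/-! ## 3. The limit -/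

/-- a filtered abelian group with an action of `G` and a shift `t` of degree one, all factors of order `p`;
`t (g v) = (ψ g) (t v)` -/
structure Fil {G : Type} [Group G] (p : ℕ) (ψ : G →* G) {V : Type} [AddCommGroup V]
    (F : ℕ → AddSubgroup V) (t : V →+ V) (ρ : G →* AddMonoid.End V) (x : V) : Prop where
  top : F 0 = ⊤
  anti : ∀ j, F (j + 1) ≤ F j
  sep : ∀ v, (∀ j, v ∈ F j) → v = 0
  tf : ∀ j v, t v ∈ F (j + 1) ↔ v ∈ F j
  out : x ∉ F 1
  ord : ∀ v, p • v ∈ F 1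
  gen : ∀ j, ∀ v ∈ F j, ∃ r : ℕ, v - r • (⇑t)^[j] x ∈ F (j + 1)
  act : ∀ g j, ∀ v ∈ F j, ρ g v ∈ F j
  eqv : ∀ g v, ρ (ψ g) (t v) = t (ρ g v)

/-- ULT (STRONG; uses CHN, CHR, ABC, CLM, KER): the limit.

Proof.  For every `K` take `n K ≥ K` and `A^K` by CHN, `A^K 0 = Ker G (p ^ K)`.  `U = Filter.hyperfilter ℕ`.
`𝒜 = {a : ℕ → G | a K ∈ A^K (n K) for all K}`, a subgroup of `ℕ → G`; `𝒵 j = {a ∈ 𝒜 | ∀ᶠ K in U, a K ∈ A^K (n K - j)}` and
`𝒵 = ⋂ 𝒵 j`, normal subgroups of `𝒜`.  `V = Additive (𝒜 ⧸ 𝒵)` is commutative: ABC with `k`: for `K ≥ k`, `K ≥ m + k`: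
`[a K, b K] ∈ A^K (n K - k)` (`A^K 0 = Ker G (p ^ K) ≤ Ker G (p ^ k)` by KER (5)).  `F j` = the image of `𝒵 j`, `t` = `ψ` in each
coordinate (`ψ a ∈ A^K i` iff `a ∈ A^K (i + 1)`; `A^K (n K + 1) = A^K (n K)`), `ρ g` = conjugation by `g` in each coordinate.
`x K ∈ A^K (n K)`, not in `A^K (n K - 1)` (`idx`).  `gen`: for `a ∈ 𝒵 j` and `K` with `j + 1 ≤ n K`, `a K ∈ A^K (n K - j)`:
`ψ^j (x K)` generates `A^K (n K - j)` modulo `A^K (n K - j - 1)` (index `p`), so `a K = ψ^j (x K) ^ (r K)` modulo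
`A^K (n K - j - 1)` with `r K < p`; by the ultrafilter `r K = r` for almost all `K`.  Last part: let `ρ g`, `ρ g'` be
trivial and `R` given.  For almost all `K`: `[g, a] ∈ A^K (n K - R)` for all `a ∈ A^K (n K)` (otherwise for almost all `K`
there is `a K` which violates it, and `a` is not fixed by `ρ g`), the same for `g'`, and `[a, b] ∈ A^K (n K - R)` by ABC: CLM for one such
`K ≥ R`. -/
def UltStmt : Prop := ∀ (G : Type) [Group G] [Group.FG G] (p : ℕ) (ψ : G →* G), p.Prime →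
  Function.Injective ψ → ψ.range.index = p → ∃ (V : Type) (_ : AddCommGroup V)
    (F : ℕ → AddSubgroup V) (t : V →+ V) (ρ : G →* AddMonoid.End V) (x : V), Fil p ψ F t ρ x ∧
    ∀ g g' : G, (∀ v, ρ g v = v) → (∀ v, ρ g' v = v) →
      ∀ R : ℕ, ∃ h, g * g' * g⁻¹ * g'⁻¹ = (⇑ψ)^[R] h

/-! ## 4. Leading coefficients -/

/-- the coefficients `F j → F j / F (j + 1) = ZMod p` -/
structure Cof (p : ℕ) {V : Type} [AddCommGroup V] (F : ℕ → AddSubgroup V) (t : V →+ V) (x : V)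
    (c : ℕ → V → ZMod p) : Prop where
  add : ∀ j, ∀ v ∈ F j, ∀ w ∈ F j, c j (v + w) = c j v + c j w
  ker : ∀ j, ∀ v ∈ F j, c j v = 0 ↔ v ∈ F (j + 1)
  one : ∀ j, c j ((⇑t)^[j] x) = 1
  sft : ∀ j, ∀ v ∈ F j, c (j + 1) (t v) = c j v

/-- COF: the coefficients exist.

Proof.  `x_j = t^j x ∈ F j`, `x_j ∉ F (j + 1)` (`tf`, `out`), `p • x_j ∈ F (j + 1)` (`ord`, `tf`).  For `v ∈ F j` choose `r` by
`gen` and put `c j v = r`; `r` is unique modulo `p` (if `p` does not divide `r - r'` then `x_j ∈ F (j + 1)` by Bezout). -/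
def CofStmt : Prop := ∀ (G : Type) [Group G] (p : ℕ) (ψ : G →* G) (V : Type) [AddCommGroup V]
  (F : ℕ → AddSubgroup V) (t : V →+ V) (ρ : G →* AddMonoid.End V) (x : V), p.Prime →
  Fil p ψ F t ρ x → ∃ c : ℕ → V → ZMod p, Cof p F t x c

/-- KAC (uses KER): `Ker G (p ^ k)` acts trivially on `F j / F (j + k)`.

Proof.  The quotient `F j / F (j + k)` has at most `p ^ k` elements (`gen` and `ord` `k` times: every element is
`∑ l < k, r_l • t^(j+l) x` modulo `F (j + k)` with `r_l < p`), and `G` acts on it by permutations (`act`; `ρ g` is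
invertible): KER (4). -/
def KacStmt : Prop := ∀ (G : Type) [Group G] [Group.FG G] (p : ℕ) (ψ : G →* G) (V : Type)
  [AddCommGroup V] (F : ℕ → AddSubgroup V) (t : V →+ V) (ρ : G →* AddMonoid.End V) (x : V),
  p.Prime → Fil p ψ F t ρ x → ∀ k, ∀ g ∈ Ker G (p ^ k), ∀ j, ∀ v ∈ F j, ρ g v - v ∈ F (j + k)

/-- TFR (uses KAC, KER): the case `p • x ≠ 0`.

Proof.  `p • x ∈ F c`, not in `F (c + 1)`, for some `c ≥ 1` (`sep`, `ord`).  (a) `p • F i ≤ F (i + c)`: `v ∈ F i` is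
`∑ l < c, r_l • t^(i+l) x + v'` with `v' ∈ F (i + c)` (`gen`), `p • t^(i+l) x = t^(i+l) (p • x) ∈ F (i + l + c)`.  (b) if
`v ∈ F i`, `v ∉ F (i + 1)` then `p • v ∉ F (i + c + 1)`: `v = r • t^i x + v'`, `p` does not divide `r`, `v' ∈ F (i + 1)`.  (c) if `q` is not
divisible by `p` and `v ∈ F i`, `v ∉ F (i + 1)` then `q • v ∉ F (i + 1)` (Bezout, `ord`).
`H = Ker G (p ^ (c + 1))`, so `D_g = ρ g - 1` maps `F j` into `F (j + c + 1)` for `g ∈ H` (KAC).  Suppose `D_g ≠ 0` for some `g ∈ H`; take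
one with minimal order, `q` a prime factor of the order: `D_(g^q) = 0`, i.e. `∑ (1 ≤ i ≤ q) (q choose i) • D_g^i v = 0`.
`v` with `w = D_g v ≠ 0`, `w ∈ F m`, `w ∉ F (m + 1)`; `D_g^i v ∈ F (m + (i - 1) (c + 1))`.  `q ≠ p`: `q • w ∉ F (m + 1)`, the other terms
are in `F (m + 1)`.  `q = p`: `p • w ∉ F (m + c + 1)` by (b); for `2 ≤ i < p` the binomial coefficient is divisible by `p` and the term is
in `F (m + c + 1)` by (a), for `i = p` it is in `F (m + (p - 1) (c + 1)) ≤ F (m + c + 1)`.  Contradiction. -/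
def TfrStmt : Prop := ∀ (G : Type) [Group G] [Group.FG G] (p : ℕ) (ψ : G →* G) (V : Type)
  [AddCommGroup V] (F : ℕ → AddSubgroup V) (t : V →+ V) (ρ : G →* AddMonoid.End V) (x : V),
  p.Prime → (∀ g : G, IsOfFinOrder g) → Fil p ψ F t ρ x → p • x ≠ 0 →
  ∃ H : Subgroup G, H.FiniteIndex ∧ ∀ g ∈ H, ∀ v, ρ g v = v

/-- `g - 1` has degree `b` and the leading coefficients `D` -/
def Lead {G : Type} [Group G] {p : ℕ} {V : Type} [AddCommGroup V] (F : ℕ → AddSubgroup V)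
    (ρ : G →* AddMonoid.End V) (c : ℕ → V → ZMod p) (g : G) (b : ℕ) (D : ℕ → ZMod p) : Prop :=
  ∀ j, ∀ v ∈ F j, ρ g v - v ∈ F (j + b) ∧ c (j + b) (ρ g v - v) = D j * c j v

/-- LEC: the leading coefficients of a commutator.

Proof.  `α = ρ g`, `β = ρ g'`: `ρ [g, g'] - 1 = (α β - β α) α⁻¹ β⁻¹` and `α β - β α = (α - 1) (β - 1) - (β - 1) (α - 1)`; `α⁻¹ β⁻¹`
preserves `F j` and `c j` on `F j` (since `b, b' ≥ 1`: `c j (α v) = c j v + c j (α v - v)`, `α v - v ∈ F (j + 1)`; for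
`α⁻¹` take `v = α⁻¹ w`). -/
def LecStmt : Prop := ∀ (G : Type) [Group G] (p : ℕ) (ψ : G →* G) (V : Type) [AddCommGroup V]
  (F : ℕ → AddSubgroup V) (t : V →+ V) (ρ : G →* AddMonoid.End V) (x : V) (c : ℕ → V → ZMod p),
  p.Prime → Fil p ψ F t ρ x → Cof p F t x c → ∀ (g g' : G) (b b' : ℕ) (D D' : ℕ → ZMod p),
  1 ≤ b → 1 ≤ b' → Lead F ρ c g b D → Lead F ρ c g' b' D' →
  Lead F ρ c (g * g' * g⁻¹ * g'⁻¹) (b + b') (fun j => D (j + b') * D' j - D' (j + b) * D j)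

/-- NIL: the leading coefficients of a torsion element are nilpotent if `p • x = 0`.

Proof.  (a) `p • v = 0` for all `v`: for every `L`, `v = ∑ l < L, r_l • t^l x + v'` with `v' ∈ F L` (`gen`), so
`p • v = p • v' ∈ F L`; `sep`.  (b) `g ^ (p ^ r * q) = 1`, `p` does not divide `q`; `h = g ^ q` has
`Lead h b (q D)` (induction: `ρ (g ^ (i+1)) - 1 = (ρ (g ^ i) - 1) + (ρ g - 1) + (ρ (g ^ i) - 1) (ρ g - 1)`).  In characteristic `p`
`(ρ h - 1) ^ (p ^ r) = ρ h ^ (p ^ r) - 1 = 0` (`sub_pow_char_pow` for commuting elements or the binomial formula with (a)).  By induction `(ρ h - 1) ^ m`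
maps `v ∈ F j` into `F (j + m b)` with coefficient `∏ l < m, q D (j + l b) * c j v`.  Take `m = p ^ r`, `v = t^j x`. -/
def NilStmt : Prop := ∀ (G : Type) [Group G] (p : ℕ) (ψ : G →* G) (V : Type) [AddCommGroup V]
  (F : ℕ → AddSubgroup V) (t : V →+ V) (ρ : G →* AddMonoid.End V) (x : V) (c : ℕ → V → ZMod p),
  p.Prime → Fil p ψ F t ρ x → Cof p F t x c → p • x = 0 → ∀ (g : G) (b : ℕ) (D : ℕ → ZMod p),
  1 ≤ b → IsOfFinOrder g → Lead F ρ c g b D →
  ∃ m : ℕ, ∀ j, ∏ l ∈ Finset.range m, D (j + l * b) = 0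

/-- OMG (uses KAC, KER): the first nonzero level.

Proof.  `Γ = Ker G p`: `ρ g v - v ∈ F (j + 1)` for `g ∈ Γ`, `v ∈ F j` (KAC, `k = 1`).  Let `s ≥ 1` be maximal with
`ρ g v - v ∈ F (j + s)` for all `g ∈ Γ`, `j`, `v ∈ F j` (if there is no maximal one, `ρ g v - v = 0` by `sep`).
`ω j g = c (j + s) (ρ g (t^j x) - t^j x)`.  `Lead g s (ω . g)`: for `v = r • t^j x + v'`, `v' ∈ F (j + 1)`, the term of `v'` is in
`F (j + s + 1)`.  `ω j` is a homomorphism `Γ → ZMod p` (`ρ (g g') - 1 = (ρ g - 1) + (ρ g' - 1) + (ρ g - 1) (ρ g' - 1)`, the last term has degree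
`2 s > s`).  `ω (j + 1) (ψ g) = ω j g` (`eqv`, `sft`; `ψ g ∈ Γ` by KER (3)).  By the maximality some `ω j0 ≠ 0`, so `ω j ≠ 0` for all
`j ≥ j0`.  The set `X` of the functions `Γ → ZMod p` which are homomorphisms is finite (`Γ` is finitely generated,
`Subgroup.fg_of_index_ne_zero` or the like); `T ω = ω ∘ ψ` maps `X` to `X` and `ω j = T (ω (j + 1)) = T^i (ω (j + i))`: all `ω j` are in the eventual
image `S` of `T`, on which `T` is a permutation, so `T^e = id` on `S` for some `e ≥ 1` and `ω j = T^e (ω (j + e)) = ω (j + e)`.  So all `ω j ≠ 0`. -/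
def OmgStmt : Prop := ∀ (G : Type) [Group G] [Group.FG G] (p : ℕ) (ψ : G →* G) (V : Type)
  [AddCommGroup V] (F : ℕ → AddSubgroup V) (t : V →+ V) (ρ : G →* AddMonoid.End V) (x : V)
  (c : ℕ → V → ZMod p), p.Prime → Fil p ψ F t ρ x → Cof p F t x c →
  (∃ g ∈ Ker G p, ∃ v, ρ g v ≠ v) → ∃ (s e : ℕ) (ω : ℕ → G → ZMod p), 1 ≤ s ∧ 1 ≤ e ∧
    (∀ g ∈ Ker G p, Lead F ρ c g s (fun j => ω j g)) ∧ (∀ j, ∃ g ∈ Ker G p, ω j g ≠ 0) ∧
    ∀ j, ∀ g ∈ Ker G p, ω (j + e) g = ω j g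

/-- CMB: the combinatorial lemma.

Proof.  `W i = 0` for `i = e`: for `D ∈ W e`, `D (j + l s e) = D j` (period), so `D j ^ m = 0`.  If all elements of `W (i + 1)`, `i ≥ 1`, are zero
then all elements of `W i` are zero: `ω (j + s i) t * D j = D (j + s) * ω j t` for all `t`, `j`; if `D j ≠ 0` choose `t` with
`ω (j + s i) t ≠ 0`: so `D (j + s) ≠ 0`; by induction `D (j + s l) ≠ 0` for all `l`, in particular all the factors `D (j + l (s i))`
are not zero, a contradiction.  So `W 1 = 0` and `ω j t = 0` for all `t`, a contradiction. -/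
def CmbStmt : Prop := ∀ (p : ℕ), p.Prime → ∀ (T : Type) (ω : ℕ → T → ZMod p) (s e : ℕ)
  (W : ℕ → Set (ℕ → ZMod p)), 1 ≤ s → 1 ≤ e → (∀ j, ∃ t, ω j t ≠ 0) →
  (∀ t, (fun j => ω j t) ∈ W 1) →
  (∀ i, 1 ≤ i → ∀ D ∈ W i, ∀ t, (fun j => ω (j + s * i) t * D j - D (j + s) * ω j t) ∈ W (i + 1)) →
  (∀ i, 1 ≤ i → ∀ D ∈ W i, ∀ j, D (j + e) = D j) →
  (∀ i, 1 ≤ i → ∀ D ∈ W i, ∃ m : ℕ, ∀ j, ∏ l ∈ Finset.range m, D (j + l * (s * i)) = 0) → False

/-- MDT (uses KER, COF, TFR, LEC, NIL, OMG, CMB): a subgroup of finite index acts trivially.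

Proof.  `p • x ≠ 0`: TFR.  `p • x = 0`: COF gives `c`; `H = Ker G p`; if it does not act trivially, OMG gives `s`, `e`, `ω`.  CMB for `T = Ker G p` and
`W i = {D | (∀ j, D (j + e) = D j) ∧ ∃ g ∈ Ker G p, Lead g (s * i) D}`: the third hypothesis is LEC for `t` and `g`
(`b = s`, `b' = s * i`), the last one is NIL. -/
def MdtStmt : Prop := ∀ (G : Type) [Group G] [Group.FG G] (p : ℕ) (ψ : G →* G) (V : Type)
  [AddCommGroup V] (F : ℕ → AddSubgroup V) (t : V →+ V) (ρ : G →* AddMonoid.End V) (x : V),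
  p.Prime → (∀ g : G, IsOfFinOrder g) → Fil p ψ F t ρ x →
  ∃ H : Subgroup G, H.FiniteIndex ∧ ∀ g ∈ H, ∀ v, ρ g v = v

/-! ## 5. The theorems -/

/-- FIN: the final contradiction.

Proof.  `H` is finitely generated and torsion, so its abelianization is finite (`CommGroup.finite_of_fg_torsion`): the
subgroup `C` of `G` generated by the commutators `[g, g']`, `g, g' ∈ H`, has finite index in `G`.  `C ≤ ψ^R(G)` for
all `R`, and `ψ^R(G)` has index `p ^ R` (induction, `ψ` injective): `p ^ R ≤ [G : C]` for all `R`. -/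
def FinStmt : Prop := ∀ (G : Type) [Group G] [Group.FG G] (p : ℕ) (ψ : G →* G), p.Prime →
  Function.Injective ψ → ψ.range.index = p → (∀ g : G, IsOfFinOrder g) → ∀ H : Subgroup G,
  H.FiniteIndex → (∀ g ∈ H, ∀ g' ∈ H, ∀ R : ℕ, ∃ h, g * g' * g⁻¹ * g'⁻¹ = (⇑ψ)^[R] h) → False

/-- ZTH (uses ULT, MDT, FIN): no finitely generated torsion group is isomorphic to a subgroup of prime
index. -/
def ZthStmt : Prop := ∀ (G : Type) [Group G] [Group.FG G] (ψ : G →* G),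
  (∀ g : G, IsOfFinOrder g) → Function.Injective ψ → ¬ (ψ.range.index).Prime

/-- SRT (uses ZTH): a surjection of a subgroup of prime index.

Proof.  Suppose `¬ CI G`.  For `g ∈ G` let `H_g = g H g⁻¹` and `K_g = g (ker φ) g⁻¹` (subgroups of `G`), they depend only on the coset
`g H`: index them by `G ⧸ H` (finite).  `K_g` is normal in `H_g`.  The intersection of all `K_g` is normal in `G` and contained in the kernel of
`φ`, so finite: `Pool.Agent.H50.CIG.exists_le_fc` gives `g` with `K_g ≤ fc G`, which is finite (`fc_finite`), so `ker φ` is finite.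
`P = {h ∈ H | φ h ∈ fc G}` is finite and normalized by `H`: `P ≤ fc G` (`le_fc`).  `φ` maps `P` onto `fc G` (surjective) and `P` has at most
as many elements, so `φ` is injective on `P` and `ker φ ≤ P` is trivial.  So `φ` is an isomorphism; `ψ` = its inverse followed by the
inclusion is injective with image `H`.  `G` is torsion (an element of infinite order generates an infinite abelian group: `CI`).  ZTH. -/
def SrtStmt : Prop := ∀ (G : Type) [Group G] [Group.FG G] [Infinite G] (H : Subgroup G)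
  (φ : H →* G), H.index.Prime → Function.Surjective φ →
  (∀ N : Subgroup G, N.Normal → (∀ y ∈ N, ∃ hy : y ∈ H, φ ⟨y, hy⟩ = 1) → (N : Set G).Finite) →
  CI G

end Pool.Agent.ZTO
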